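import Pool.Agent.helper96.LK.SpecM

set_option autoImplicit false

open PowerSeries Filter

noncomputable section

namespace Pool.Agent.LK

open Pool.Agent.helper59.LC Pool.Agent.helper59.LD

theorem ROOT_c0 (A : Type) [CommRing A] (q f : A⟦X⟧) (hq : constantCoeff q = 0) :
    coeff 0 (f.subst q) = coeff 0 f := by
  have hs : HasSubst q := HasSubst.of_constantCoeff_zero' hq
  rw [coeff_subst' hs, finsum_eq_single _ 0]
  · rw [pow_zero, coeff_zero_one, smul_eq_mul, mul_one]
  · intro n hn
    rw [coeff_zero_eq_constantCoeff_apply, map_pow, hq, zero_pow hn, smul_zero]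

theorem ROOT : ROOT_stmt := by
  intro A _ _ m e hm
  set q : A⟦X⟧ := psi (gq e) with hqdef
  have hq : constantCoeff q = 0 := by
    have h := (isPsi_psi (gq e)).1
    rw [PowerSeries.X_dvd_iff] at h
    exact h
  have hs : HasSubst q := HasSubst.of_constantCoeff_zero' hq
  have hm0 : (m : ℚ) ≠ 0 := by
    have : (0 : ℚ) < m := by exact_mod_cast (by omega : 0 < m)
    exact this.ne'
  refine ⟨⟨fun k => (binomialSeries A ((k : ℚ) / m)).subst q, ?_, ?_, ?_, ?_⟩⟩
  · show (binomialSeries A (((0 : ℤ) : ℚ) / m)).subst q = 1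
    rw [Int.cast_zero, zero_div, binomialSeries_zero, ← coe_substAlgHom hs, map_one]
  · intro k l
    show (binomialSeries A (((k + l : ℤ) : ℚ) / m)).subst q = _
    rw [Int.cast_add, add_div, binomialSeries_add, subst_mul hs]
  · show (binomialSeries A (((m : ℤ) : ℚ) / m)).subst q = 1 + psi (gq e)
    rw [Int.cast_natCast, div_self hm0]
    have h1 : binomialSeries A (1 : ℚ) = 1 + X := by
      have := binomialSeries_nat (R := ℚ) (A := A) 1
      rw [Nat.cast_one, pow_one] at this
      exact this
    rw [h1, subst_add hs, subst_X hs, ← coe_substAlgHom hs, map_one]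
  · intro k
    show coeff 0 ((binomialSeries A ((k : ℚ) / m)).subst q) = 1
    rw [ROOT_c0 A q _ hq, coeff_zero_eq_constantCoeff_apply, binomialSeries_constantCoeff]

end Pool.Agent.LK
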